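import Mathlib

set_option autoImplicit false

namespace Pool.Agent.Results.MP_c42e77_an.CantorLevels

open Filter Topology Cardinal

/-- the subsum `f((ε_n)) = ∑ ε_n x_n` -/
noncomputable def f (x : ℕ → ℝ) (ε : ℕ → Bool) : ℝ := ∑' n, (if ε n then x n else 0)

/-- the fibre of `f` over `t`; its cardinality is `F_x(t)` -/
def fibre (x : ℕ → ℝ) (t : ℝ) : Set (ℕ → Bool) := {ε | f x ε = t}

/-- `L_𝔠(x)` -/
def Lc (x : ℕ → ℝ) : Set ℝ := {t | #(fibre x t) = 𝔠}

/-- `L_ω(x)` -/
def Lomega (x : ℕ → ℝ) : Set ℝ := {t | #(fibre x t) = ℵ₀}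

/-- `C` is a Cantor set: homeomorphic to `{0,1}^ℕ` -/
def IsCantor (C : Set ℝ) : Prop := Nonempty (C ≃ₜ (ℕ → Bool))

/-! ### general facts -/

lemma mk_cantor : #(ℕ → Bool) = 𝔠 := by simp

lemma summ {x : ℕ → ℝ} (hp : ∀ n, 0 < x n) (hs : Summable x) (ε : ℕ → Bool) :
    Summable (fun n => if ε n then x n else 0) := by
  apply Summable.of_nonneg_of_le _ _ hs
  · intro n; split_ifs
    · exact (hp n).le
    · exact le_rfl
  · intro n; split_ifs
    · exact le_rfl
    · exact (hp n).le

lemma f_cont {x : ℕ → ℝ} (hp : ∀ n, 0 < x n) (hs : Summable x) : Continuous (f x) := by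
  unfold f
  apply continuous_tsum (u := x) _ hs
  · intro n ε
    split_ifs
    · rw [Real.norm_of_nonneg (hp n).le]
    · rw [norm_zero]; exact (hp n).le
  · intro n
    have : Continuous (fun b : Bool => if b then x n else (0 : ℝ)) := continuous_of_discreteTopology
    exact this.comp (continuous_apply n)

/-! ### Q1 -/

lemma fusion {K : Set (ℕ → Bool)} (hK : IsClosed K) (hu : ¬ K.Countable) :
    ∃ (b : Bool) (n : ℕ → ℕ) (Θ : (ℕ → Bool) → (ℕ → Bool)), StrictMono n ∧
      Function.Injective Θ ∧ ∀ z, Θ z ∈ K ∧ ∀ k, Θ z (n k) = b := by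
  classical
  let 𝒰 : Ultrafilter ℕ := hyperfilter ℕ
  obtain ⟨b, hb⟩ : ∃ b : Bool, ¬ {y ∈ K | ∀ᶠ n in (𝒰 : Filter ℕ), y n = b}.Countable := by
    by_contra hc
    push Not at hc
    apply hu
    apply Set.Countable.mono _ ((hc true).union (hc false))
    intro y hy
    have : ∀ᶠ n in (𝒰 : Filter ℕ), (y n = true ∨ y n = false) := by
      filter_upwards with n
      exact Bool.eq_false_or_eq_true (y n)
    rw [Ultrafilter.eventually_or] at this
    rcases this with h | h
    · exact Or.inl ⟨hy, h⟩
    · exact Or.inr ⟨hy, h⟩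
  set A : Set (ℕ → Bool) := {y ∈ K | ∀ᶠ n in (𝒰 : Filter ℕ), y n = b} with hA
  let A' : Set (ℕ → Bool) := {y ∈ A | ∀ U : Set (ℕ → Bool), IsOpen U → y ∈ U → ¬ (U ∩ A).Countable}
  have hdiff : (A \ A').Countable := by
    let Bs := TopologicalSpace.countableBasis (ℕ → Bool)
    have hBs : Bs.Countable := TopologicalSpace.countable_countableBasis _
    have hsub : A \ A' ⊆ ⋃ V ∈ {V ∈ Bs | (V ∩ A).Countable}, (V ∩ A) := by
      rintro y ⟨hyA, hyA'⟩
      have h1 : ∃ U : Set (ℕ → Bool), IsOpen U ∧ y ∈ U ∧ (U ∩ A).Countable := by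
        by_contra hc
        push Not at hc
        exact hyA' ⟨hyA, fun U hU hy => hc U hU hy⟩
      obtain ⟨U, hU, hyU, hUc⟩ := h1
      obtain ⟨V, hV, hyV, hVU⟩ :=
        (TopologicalSpace.isBasis_countableBasis (ℕ → Bool)).exists_subset_of_mem_open hyU hU
      rw [Set.mem_iUnion₂]
      exact ⟨V, ⟨hV, hUc.mono (Set.inter_subset_inter_left _ hVU)⟩, hyV, hyA⟩
    apply Set.Countable.mono hsub
    apply Set.Countable.biUnion
    · exact hBs.mono (fun V hV => hV.1)
    · intro V hV; exact hV.2
  have hA'ne : A'.Nonempty := by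
    by_contra hc
    rw [Set.not_nonempty_iff_eq_empty] at hc
    rw [hc, Set.sdiff_empty] at hdiff
    exact hb hdiff
  have hstar : ∀ (y : ℕ → Bool) (m : ℕ), y ∈ A' → ∃ y' ∈ A', (∀ i ≤ m, y' i = y i) ∧
      ∃ d, y' d ≠ y d := by
    intro y m hy
    have hUo : IsOpen {w : ℕ → Bool | ∀ i ≤ m, w i = y i} := by
      have : {w : ℕ → Bool | ∀ i ≤ m, w i = y i} = ⋂ i ∈ Finset.range (m + 1), {w | w i = y i} := by
        ext w
        simp
      rw [this]
      apply isOpen_biInter_finset
      intro i _
      have hcont : Continuous (fun w : ℕ → Bool => w i) := continuous_apply i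
      exact hcont.isOpen_preimage _ (isOpen_discrete ({y i} : Set Bool))
    have h1 := hy.2 _ hUo (fun i _ => rfl)
    have h2 : ¬ ({w : ℕ → Bool | ∀ i ≤ m, w i = y i} ∩ A ⊆ (A \ A') ∪ {y}) := by
      intro h
      exact h1 ((hdiff.union (Set.countable_singleton y)).mono h)
    rw [Set.not_subset] at h2
    obtain ⟨w, ⟨hw1, hw2⟩, hw3⟩ := h2
    have hw4 : w ∈ A' := by
      by_contra hc
      exact hw3 (Or.inl ⟨hw2, hc⟩)
    have hw5 : w ≠ y := fun h => hw3 (Or.inr h)
    refine ⟨w, hw4, hw1, ?_⟩
    by_contra hc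
    push Not at hc
    exact hw5 (funext hc)
  choose! st hst1 hst2 df hdf using hstar
  have hnext : ∀ (S : Finset (ℕ → Bool)) (M : ℕ), (∀ y ∈ S, y ∈ A') →
      ∃ n, M ≤ n ∧ ∀ y ∈ S, y n = b := by
    intro S M hS
    have h1 : ∀ᶠ n in (𝒰 : Filter ℕ), ∀ y ∈ S, y n = b := by
      rw [Filter.eventually_all_finset]
      intro y hy
      exact (hS y hy).1.2
    have h2 : ∀ᶠ n in (𝒰 : Filter ℕ), M ≤ n := by
      apply (hyperfilter_le_cofinite (α := ℕ))
      rw [mem_cofinite]
      apply Set.Finite.subset (Set.finite_Iio M)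
      intro n hn
      simpa using hn
    obtain ⟨n, hn1, hn2⟩ := (h1.and h2).exists
    exact ⟨n, hn2, hn1⟩
  choose! nx hnx1 hnx2 using hnext
  obtain ⟨y0, hy0⟩ := hA'ne
  let step : Finset (ℕ → Bool) × ℕ → Finset (ℕ → Bool) × ℕ := fun s =>
    (s.1 ∪ s.1.image (fun y => st y (nx s.1 s.2)),
      (nx s.1 s.2 + 1) + ∑ y ∈ s.1, (df y (nx s.1 s.2) + 1))
  let σ : ℕ → Finset (ℕ → Bool) × ℕ := fun k => step^[k] ({y0}, 0)
  have hσ : ∀ k, σ (k + 1) = step (σ k) := fun k => Function.iterate_succ_apply' step k _
  let n : ℕ → ℕ := fun k => nx (σ k).1 (σ k).2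
  have hinv : ∀ k, ∀ y ∈ (σ k).1, y ∈ A' := by
    intro k
    induction k with
    | zero =>
      intro y hy
      have : y = y0 := by simpa [σ] using hy
      rw [this]; exact hy0
    | succ k ih =>
      intro y hy
      rw [hσ] at hy
      simp only [step, Finset.mem_union, Finset.mem_image] at hy
      rcases hy with hy | ⟨w, hw, rfl⟩
      · exact ih y hy
      · exact hst1 w _ (ih w hw)
  have hnM : ∀ k, (σ k).2 ≤ n k := fun k => hnx1 _ _ (hinv k)
  have hnb : ∀ k, ∀ y ∈ (σ k).1, y (n k) = b := fun k => hnx2 _ _ (hinv k)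
  have hM1 : ∀ k, n k + 1 ≤ (σ (k + 1)).2 := by
    intro k
    rw [hσ]
    exact Nat.le_add_right _ _
  have hM2 : ∀ k, ∀ y ∈ (σ k).1, df y (n k) + 1 ≤ (σ (k + 1)).2 := by
    intro k y hy
    rw [hσ]
    have : df y (n k) + 1 ≤ ∑ y ∈ (σ k).1, (df y (n k) + 1) :=
      Finset.single_le_sum (f := fun y => df y (n k) + 1) (fun _ _ => Nat.zero_le _) hy
    exact this.trans (Nat.le_add_left _ _)
  have hmono : StrictMono n := strictMono_nat_of_lt_succ (fun k => by
    have := hM1 k
    have := hnM (k + 1)
    omega)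
  let Y : ℕ → (ℕ → Bool) → (ℕ → Bool) := fun k z =>
    Nat.rec y0 (fun k y => if z k then st y (n k) else y) k
  have hY0 : ∀ z, Y 0 z = y0 := fun z => rfl
  have hYs : ∀ k z, Y (k + 1) z = if z k then st (Y k z) (n k) else Y k z := fun k z => rfl
  have hYmem : ∀ k z, Y k z ∈ (σ k).1 := by
    intro k z
    induction k with
    | zero => simp [hY0, σ]
    | succ k ih =>
      rw [hYs, hσ]
      simp only [step, Finset.mem_union, Finset.mem_image]
      split_ifs
      · exact Or.inr ⟨_, ih, rfl⟩
      · exact Or.inl ih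
  have hF2 : ∀ k z i, i ≤ n k → Y (k + 1) z i = Y k z i := by
    intro k z i hi
    rw [hYs]
    split_ifs
    · exact hst2 _ _ (hinv k _ (hYmem k z)) i hi
    · rfl
  have hF3 : ∀ k z i, i ≤ n k → ∀ j, k ≤ j → Y j z i = Y k z i := by
    intro k z i hi j hj
    induction j, hj using Nat.le_induction with
    | base => rfl
    | succ j hj ih =>
      rw [hF2 j z i (hi.trans (hmono.monotone hj)), ih]
  let Θ : (ℕ → Bool) → (ℕ → Bool) := fun z i => Y i z i
  have hΘ : ∀ z k i, i ≤ n k → Θ z i = Y k z i := by
    intro z k i hi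
    have h1 := hF3 k z i hi (max i k) (le_max_right _ _)
    have h2 := hF3 i z i (hmono.id_le i) (max i k) (le_max_left _ _)
    show Y i z i = Y k z i
    rw [← h2, h1]
  refine ⟨b, n, Θ, hmono, ?_, ?_⟩
  · intro z z' hzz
    by_contra hne
    have hex : ∃ k, z k ≠ z' k := by
      by_contra hc
      push Not at hc
      exact hne (funext hc)
    let k := Nat.find hex
    have hk : z k ≠ z' k := Nat.find_spec hex
    have hlt : ∀ j < k, z j = z' j := by
      intro j hj
      have := Nat.find_min hex hj
      simpa using this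
    have hYe : ∀ j ≤ k, Y j z = Y j z' := by
      intro j
      induction j with
      | zero => intro _; rfl
      | succ j ih =>
        intro hj
        rw [hYs, hYs, ih (by omega), hlt j (by omega)]
    have hyy := hYe k le_rfl
    have hd := hdf (Y k z) (n k) (hinv k _ (hYmem k z))
    have hdle : df (Y k z) (n k) ≤ n (k + 1) := by
      have := hM2 k _ (hYmem k z)
      have := hnM (k + 1)
      omega
    have e1 := hΘ z (k + 1) _ hdle
    have e2 := hΘ z' (k + 1) _ hdle
    rw [hzz] at e1
    have e3 : Y (k + 1) z (df (Y k z) (n k)) = Y (k + 1) z' (df (Y k z) (n k)) := by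
      rw [← e1, ← e2]
    rw [hYs, hYs, ← hyy] at e3
    rcases Bool.eq_false_or_eq_true (z k) with h1 | h1
    · have h2 : z' k = false := by
        rcases Bool.eq_false_or_eq_true (z' k) with h3 | h3
        · exact absurd (h1.trans h3.symm) hk
        · exact h3
      rw [h1, h2] at e3
      simp only [if_true, Bool.false_eq_true, if_false] at e3
      exact hd e3
    · have h2 : z' k = true := by
        rcases Bool.eq_false_or_eq_true (z' k) with h3 | h3
        · exact h3
        · exact absurd (h1.trans h3.symm) hk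
      rw [h1, h2] at e3
      simp only [if_true, Bool.false_eq_true, if_false] at e3
      exact hd e3.symm
  · intro z
    constructor
    · have htend : Tendsto (fun k => Y k z) atTop (𝓝 (Θ z)) := by
        rw [tendsto_pi_nhds]
        intro i
        apply tendsto_const_nhds.congr'
        filter_upwards [eventually_ge_atTop i] with j hj
        exact (hF3 i z i (hmono.id_le i) j hj).symm
      apply hK.mem_of_tendsto htend
      filter_upwards with k
      exact (hinv k _ (hYmem k z)).1.1
    · intro k
      rw [hΘ z k (n k) le_rfl]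
      exact hnb k _ (hYmem k z)


/-- fast decreasing sequences have injective subsum map -/
lemma f_inj {u : ℕ → ℝ} (hp : ∀ n, 0 < u n) (hs : Summable u) (hd : ∀ n, u (n + 1) ≤ u n / 3) :
    Function.Injective (f u) := by
  -- tail bound
  have hpow : ∀ k i, u (k + i) ≤ u k * (1 / 3) ^ i := by
    intro k i
    induction i with
    | zero => simp
    | succ i ih =>
      have := hd (k + i)
      rw [← add_assoc, pow_succ]
      nlinarith
  have htail : ∀ k, ∑' i, u (k + 1 + i) < u k := by
    intro k
    have h1 : ∑' i, u (k + 1 + i) ≤ ∑' i : ℕ, u (k + 1) * (1 / 3) ^ i := by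
      apply Summable.tsum_le_tsum (hpow (k + 1))
      · have := (summable_nat_add_iff (k + 1)).2 hs
        refine this.congr ?_
        intro i; rw [add_comm]
      · exact (summable_geometric_of_lt_one (by norm_num) (by norm_num)).mul_left _
    rw [tsum_mul_left, tsum_geometric_of_lt_one (by norm_num) (by norm_num)] at h1
    have h2 := hd k
    have h3 := hp k
    norm_num at h1
    linarith
  intro ε δ h
  by_contra hne
  have hex : ∃ k, ε k ≠ δ k := by
    by_contra hc
    push Not at hc
    exact hne (funext hc)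
  classical
  let k := Nat.find hex
  have hk : ε k ≠ δ k := Nat.find_spec hex
  have hlt : ∀ j < k, ε j = δ j := by
    intro j hj
    have := Nat.find_min hex hj
    simpa using this
  have key : ∀ (α β : ℕ → Bool), (∀ j < k, α j = β j) → α k = true → β k = false →
      f u β < f u α := by
    intro α β hj ha hb
    unfold f
    rw [← (summ hp hs α).sum_add_tsum_nat_add (k + 1), ← (summ hp hs β).sum_add_tsum_nat_add (k + 1),
      Finset.sum_range_succ, Finset.sum_range_succ]
    have e1 : ∑ i ∈ Finset.range k, (if β i then u i else 0) =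
        ∑ i ∈ Finset.range k, (if α i then u i else 0) := by
      apply Finset.sum_congr rfl
      intro i hi
      rw [hj i (Finset.mem_range.1 hi)]
    rw [e1, ha, hb]
    have e2 : 0 ≤ ∑' i, (if α (i + (k + 1)) then u (i + (k + 1)) else 0) := by
      apply tsum_nonneg
      intro i
      split_ifs
      · exact (hp _).le
      · exact le_rfl
    have e3 : ∑' i, (if β (i + (k + 1)) then u (i + (k + 1)) else 0) ≤ ∑' i, u (k + 1 + i) := by
      apply Summable.tsum_le_tsum
      · intro i
        rw [add_comm i]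
        split_ifs
        · exact le_rfl
        · exact (hp _).le
      · exact (summable_nat_add_iff (k + 1)).2 (summ hp hs β)
      · have := (summable_nat_add_iff (k + 1)).2 hs
        refine this.congr ?_
        intro i; rw [add_comm]
    have e4 := htail k
    simp only [if_true, Bool.false_eq_true, if_false]
    linarith
  rcases Bool.eq_false_or_eq_true (ε k) with h1 | h1
  · have h2 : δ k = false := by
      rcases Bool.eq_false_or_eq_true (δ k) with h3 | h3
      · exact absurd (h1.trans h3.symm) hk
      · exact h3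
    have := key ε δ hlt h1 h2
    exact absurd h this.ne'
  · have h2 : δ k = true := by
      rcases Bool.eq_false_or_eq_true (δ k) with h3 | h3
      · exact h3
      · exact absurd (h1.trans h3.symm) hk
    have := key δ ε (fun j hj => (hlt j hj).symm) h2 h1
    exact absurd h this.ne

open Classical in
/-- flip the coordinates `I j`, `J j = true` -/
noncomputable def flip (I : ℕ → ℕ) (J : ℕ → Bool) (y : ℕ → Bool) : ℕ → Bool :=
  fun i => if ∃ j, I j = i ∧ J j = true then !(y i) else y i

lemma flip_inj (I : ℕ → ℕ) (J : ℕ → Bool) : Function.Injective (flip I J) := by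
  intro y y' h
  funext i
  have := congrFun h i
  unfold flip at this
  split_ifs at this
  · simpa using this
  · exact this

lemma f_flip {x : ℕ → ℝ} (hp : ∀ n, 0 < x n) (hs : Summable x) {I : ℕ → ℕ} (hI : Function.Injective I)
    (J : ℕ → Bool) (b : Bool) {y : ℕ → Bool} (hy : ∀ j, y (I j) = b) :
    f x (flip I J y) = f x y + (if b then -1 else 1) * f (fun j => x (I j)) J := by
  classical
  have h1 : f x (flip I J y) - f x y =
      ∑' i, ((if flip I J y i then x i else 0) - (if y i then x i else 0)) := by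
    unfold f
    rw [(summ hp hs _).tsum_sub (summ hp hs _)]
  have h2 : ∑' i, ((if flip I J y i then x i else 0) - (if y i then x i else 0)) =
      ∑' j, ((if flip I J y (I j) then x (I j) else 0) - (if y (I j) then x (I j) else 0)) := by
    symm
    apply hI.tsum_eq (f := fun i => ((if flip I J y i then x i else 0) - (if y i then x i else 0)))
    intro i hi
    by_contra hc
    apply hi
    have : flip I J y i = y i := by
      unfold flip
      rw [if_neg]
      rintro ⟨j, hj, -⟩
      exact hc ⟨j, hj⟩
    simp [this]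
  have h3 : ∀ j, ((if flip I J y (I j) then x (I j) else 0) - (if y (I j) then x (I j) else 0)) =
      (if b then -1 else 1) * (if J j then x (I j) else 0) := by
    intro j
    have e : flip I J y (I j) = if J j then !b else b := by
      unfold flip
      rw [hy]
      by_cases hJ : J j = true
      · rw [if_pos ⟨j, rfl, hJ⟩, if_pos hJ]
      · rw [if_neg, if_neg hJ]
        rintro ⟨j', hj', hJ'⟩
        rw [hI hj'] at hJ'
        exact hJ hJ'
    rw [e, hy]
    cases b <;> cases hJj : J j <;> simp
  have h4 : ∑' j, ((if flip I J y (I j) then x (I j) else 0) - (if y (I j) then x (I j) else 0)) =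
      (if b then -1 else 1) * f (fun j => x (I j)) J := by
    rw [tsum_congr h3, tsum_mul_left]
    rfl
  linarith [h1, h2, h4]

lemma card_le (S : Set (ℕ → Bool)) : #S ≤ 𝔠 := by
  have h1 : #S ≤ #(ℕ → Bool) := mk_set_le S
  have h2 : #(ℕ → Bool) = 𝔠 := by simp
  rwa [h2] at h1

theorem q1 (x : ℕ → ℝ) (hp : ∀ n, 0 < x n) (hs : Summable x) (hne : (Lc x).Nonempty) :
    ∃ C ⊆ Lc x, IsCantor C := by
  obtain ⟨t, ht⟩ := hne
  have hcl : IsClosed (fibre x t) := isClosed_singleton.preimage (f_cont hp hs)
  have hunc : ¬ (fibre x t).Countable := by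
    intro h
    have h1 : #(fibre x t) ≤ ℵ₀ := Cardinal.le_aleph0_iff_set_countable.2 h
    have h2 : #(fibre x t) = 𝔠 := ht
    rw [h2] at h1
    exact absurd h1 (not_le.2 Cardinal.aleph0_lt_continuum)
  obtain ⟨b, n, Θ, hn, hΘ, hΘ2⟩ := fusion hcl hunc
  -- fast subsequence
  have hx0 : Tendsto x atTop (𝓝 0) := hs.tendsto_atTop_zero
  have hsub : ∀ k : ℕ, ∃ l, k < l ∧ x (n l) ≤ x (n k) / 3 := by
    intro k
    have h1 : Tendsto (fun l => x (n l)) atTop (𝓝 0) := hx0.comp hn.tendsto_atTop
    have h2 : ∀ᶠ l in atTop, x (n l) < x (n k) / 3 :=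
      h1.eventually_lt_const (by have := hp (n k); positivity)
    obtain ⟨l, hl1, hl2⟩ := (h2.and (eventually_gt_atTop k)).exists
    exact ⟨l, hl2, hl1.le⟩
  choose g hg1 hg2 using hsub
  let φ : ℕ → ℕ := fun j => g^[j] 0
  have hφ : ∀ j, φ (j + 1) = g (φ j) := fun j => Function.iterate_succ_apply' g j 0
  have hφm : StrictMono φ := strictMono_nat_of_lt_succ (fun j => by rw [hφ]; exact hg1 _)
  let I : ℕ → ℕ := fun j => n (φ j)
  have hIm : StrictMono I := hn.comp hφm
  let u : ℕ → ℝ := fun j => x (I j)
  have hup : ∀ j, 0 < u j := fun j => hp _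
  have hus : Summable u := hs.comp_injective hIm.injective
  have hud : ∀ j, u (j + 1) ≤ u j / 3 := by
    intro j
    have := hg2 (φ j)
    rw [← hφ] at this
    exact this
  have huinj := f_inj hup hus hud
  let s : ℝ := if b then -1 else 1
  have hsne : s ≠ 0 := by simp only [s]; split_ifs <;> norm_num
  let h : (ℕ → Bool) → ℝ := fun J => t + s * f u J
  have hcont : Continuous h := by
    apply Continuous.add continuous_const
    exact continuous_const.mul (f_cont hup hus)
  have hinj : Function.Injective h := by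
    intro J J' hJ
    simp only [h] at hJ
    exact huinj (mul_left_cancel₀ hsne (add_left_cancel hJ))
  have hemb : IsClosedEmbedding h := hcont.isClosedEmbedding hinj
  refine ⟨Set.range h, ?_, ⟨hemb.isEmbedding.toHomeomorph.symm⟩⟩
  rintro _ ⟨J, rfl⟩
  show #(fibre x (h J)) = 𝔠
  apply le_antisymm (card_le _)
  have h2 : #(ℕ → Bool) = 𝔠 := by simp
  rw [← h2]
  let F : (ℕ → Bool) → fibre x (h J) := fun z => ⟨flip I J (Θ z), by
    show f x (flip I J (Θ z)) = t + s * f u J
    rw [f_flip hp hs hIm.injective J b (fun j => (hΘ2 z).2 (φ j))]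
    have : f x (Θ z) = t := (hΘ2 z).1
    rw [this]⟩
  apply Cardinal.mk_le_of_injective (f := F)
  intro z z' hz
  have := congrArg Subtype.val hz
  exact hΘ (flip_inj I J this)


/-! ### Q2 : the golden ratio -/

/-- the inverse golden ratio -/
noncomputable def q : ℝ := (Real.sqrt 5 - 1) / 2

lemma q_sq : q ^ 2 = 1 - q := by
  unfold q
  have := Real.sq_sqrt (show (0:ℝ) ≤ 5 by norm_num)
  nlinarith

lemma q_pos : 0 < q := by
  unfold q
  have : (1:ℝ) < Real.sqrt 5 := by
    rw [Real.lt_sqrt (by norm_num)]; norm_num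
  linarith

lemma q_lt : q < 1 := by
  have := q_sq
  have := q_pos
  nlinarith

lemma q_half : 1 / 2 < q := by
  have := q_sq
  have := q_pos
  nlinarith

noncomputable def xq (n : ℕ) : ℝ := q ^ (n + 1)

lemma xq_pos (n : ℕ) : 0 < xq n := pow_pos q_pos _

lemma xq_summable : Summable xq := by
  have := (summable_geometric_of_lt_one q_pos.le q_lt).mul_right q
  exact this.congr (fun n => (pow_succ q n).symm)

lemma inv_q : q⁻¹ = 1 + q := by
  have h := q_sq
  have h0 := q_pos.ne'
  field_simp
  linarith

lemma xq_tsum : ∑' n, xq n = 1 + q := by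
  have h1 : ∑' n, xq n = (∑' n : ℕ, q ^ n) * q := by
    rw [← tsum_mul_right]
    exact tsum_congr (fun n => pow_succ q n)
  rw [h1, tsum_geometric_of_lt_one q_pos.le q_lt]
  have h := q_sq
  have h0 : (1 - q) ≠ 0 := by have := q_lt; linarith
  field_simp
  linarith

/-- shift -/
def tail (N : ℕ) (ε : ℕ → Bool) : ℕ → Bool := fun n => ε (n + N)

lemma f_nonneg (ε : ℕ → Bool) : 0 ≤ f xq ε := by
  unfold f
  apply tsum_nonneg
  intro n; split_ifs
  · exact (xq_pos n).le
  · exact le_rfl

lemma f_le (ε : ℕ → Bool) : f xq ε ≤ 1 + q := by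
  rw [← xq_tsum]
  unfold f
  apply Summable.tsum_le_tsum _ (summ xq_pos xq_summable ε) xq_summable
  intro n; split_ifs
  · exact le_rfl
  · exact (xq_pos n).le

lemma f_rec (ε : ℕ → Bool) : f xq ε = (if ε 0 then q else 0) + q * f xq (tail 1 ε) := by
  have h1 := (summ xq_pos xq_summable ε).sum_add_tsum_nat_add 1
  unfold f
  rw [← h1, Finset.sum_range_one, ← tsum_mul_left]
  congr 1
  · simp [xq]
  · apply tsum_congr
    intro n
    show (if ε (n + 1) then xq (n + 1) else 0) = q * (if ε (n + 1) then xq n else 0)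
    by_cases hε : ε (n + 1) = true
    · rw [if_pos hε, if_pos hε]
      unfold xq
      rw [pow_succ' q (n + 1)]
    · rw [if_neg hε, if_neg hε, mul_zero]

/-- orbit -/
noncomputable def orb (ε : ℕ → Bool) (N : ℕ) : ℝ := f xq (tail N ε)

lemma orb_rec (ε : ℕ → Bool) (N : ℕ) :
    orb ε N = (if ε N then q else 0) + q * orb ε (N + 1) := by
  unfold orb
  rw [f_rec (tail N ε)]
  have h1 : tail N ε 0 = ε N := by simp [tail]
  have h2 : tail 1 (tail N ε) = tail (N + 1) ε := by
    funext n
    simp only [tail]
    congr 1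
    omega
  rw [h1, h2]

lemma orb_zero (ε : ℕ → Bool) : orb ε 0 = f xq ε := by
  unfold orb
  congr 1

lemma orb_nonneg (ε : ℕ → Bool) (N : ℕ) : 0 ≤ orb ε N := f_nonneg _
lemma orb_le (ε : ℕ → Bool) (N : ℕ) : orb ε N ≤ 1 + q := f_le _

/-- if two sequences agree before `N` and have the same orbit value at `N`, they have the same sum -/
lemma f_eq_of_orb {ε δ : ℕ → Bool} {N : ℕ} (h : ∀ n < N, ε n = δ n) (ho : orb ε N = orb δ N) :
    f xq ε = f xq δ := by
  have key : ∀ k ≤ N, orb ε (N - k) = orb δ (N - k) := by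
    intro k
    induction k with
    | zero => intro _; simpa using ho
    | succ k ih =>
      intro hk
      have e : N - k = (N - (k + 1)) + 1 := by omega
      rw [orb_rec ε, orb_rec δ, ← e, ih (by omega), h _ (by omega)]
  have := key N le_rfl
  rwa [Nat.sub_self, orb_zero, orb_zero] at this

/-- every point of `[0, 1+q]` has an expansion -/
lemma exists_exp (t : ℝ) (h0 : 0 ≤ t) (h1 : t ≤ 1 + q) : ∃ ε, f xq ε = t := by
  classical
  let T : ℝ → ℝ := fun s => if q ≤ s then (s - q) / q else s / q
  let s : ℕ → ℝ := fun n => T^[n] t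
  have hs : ∀ n, s (n + 1) = T (s n) := fun n => Function.iterate_succ_apply' T n t
  have hb : ∀ n, 0 ≤ s n ∧ s n ≤ 1 + q := by
    intro n
    induction n with
    | zero => exact ⟨h0, h1⟩
    | succ n ih =>
      rw [hs]
      simp only [T]
      have hq := q_pos
      have hsq := q_sq
      split_ifs with hc
      · constructor
        · exact div_nonneg (by linarith) hq.le
        · rw [div_le_iff₀ hq]; nlinarith [ih.2]
      · push Not at hc
        constructor
        · exact div_nonneg ih.1 hq.le
        · rw [div_le_iff₀ hq]; nlinarith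
  let ε : ℕ → Bool := fun n => decide (q ≤ s n)
  refine ⟨ε, ?_⟩
  -- partial sums
  have hpart : ∀ N, t = ∑ i ∈ Finset.range N, (if ε i then xq i else 0) + q ^ N * s N := by
    intro N
    induction N with
    | zero => simp [s]
    | succ N ih =>
      have hq := q_pos.ne'
      rw [Finset.sum_range_succ, hs]
      conv_lhs => rw [ih]
      simp only [T, ε, xq]
      by_cases hc : q ≤ s N
      · simp only [hc, decide_true, if_true]
        rw [pow_succ]
        field_simp
        ring
      · simp only [hc, decide_false, Bool.false_eq_true, if_false]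
        rw [pow_succ]
        field_simp
        ring
  have h2 : Tendsto (fun N => ∑ i ∈ Finset.range N, (if ε i then xq i else 0)) atTop (𝓝 (f xq ε)) :=
    (summ xq_pos xq_summable ε).hasSum.tendsto_sum_nat
  have h3 : Tendsto (fun N => q ^ N * s N) atTop (𝓝 0) := by
    have h4 : Tendsto (fun N : ℕ => q ^ N * (1 + q)) atTop (𝓝 0) := by
      have := (tendsto_pow_atTop_nhds_zero_of_lt_one q_pos.le q_lt).mul_const (1 + q)
      simpa using this
    refine squeeze_zero ?_ ?_ h4
    · intro N; exact mul_nonneg (pow_pos q_pos N).le (hb N).1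
    · intro N; exact mul_le_mul_of_nonneg_left (hb N).2 (pow_pos q_pos N).le
  have h5 := h2.add h3
  rw [add_zero] at h5
  have h6 : (fun N => ∑ i ∈ Finset.range N, (if ε i then xq i else 0) + q ^ N * s N) = fun _ => t :=
    funext fun N => (hpart N).symm
  rw [h6] at h5
  exact (tendsto_nhds_unique h5 tendsto_const_nhds)

/-- the countable exceptional set `ℤ[q]` -/
def D : Set ℝ := Set.range (fun p : ℤ × ℤ => (p.1 : ℝ) + p.2 * q)

lemma D_countable : D.Countable := Set.countable_range _

lemma orb_notMem {ε : ℕ → Bool} (h : f xq ε ∉ D) (N : ℕ) : orb ε N ∉ D := by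
  induction N with
  | zero => rwa [orb_zero]
  | succ N ih =>
    rintro ⟨⟨a, b⟩, hab⟩
    simp only at hab
    apply ih
    rw [orb_rec, ← hab]
    have := q_sq
    by_cases hε : ε N = true
    · refine ⟨(b, a - b + 1), ?_⟩
      rw [if_pos hε]
      push_cast
      linear_combination (-(b:ℝ)) * this
    · refine ⟨(b, a - b), ?_⟩
      rw [if_neg hε]
      push_cast
      linear_combination (-(b:ℝ)) * this

lemma zero_mem_D : (0:ℝ) ∈ D := ⟨(0, 0), by simp⟩
lemma one_mem_D : (1:ℝ) ∈ D := ⟨(1, 0), by simp⟩
lemma q_mem_D : q ∈ D := ⟨(0, 1), by simp⟩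
lemma top_mem_D : 1 + q ∈ D := ⟨(1, 1), by simp⟩

/-- the orbit visits the switch region after any time -/
lemma visits {ε : ℕ → Bool} (h : f xq ε ∉ D) (N : ℕ) : ∃ M, N ≤ M ∧ q < orb ε M ∧ orb ε M < 1 := by
  have hq := q_pos
  have hq1 := q_lt
  have hsq := q_sq
  have hD := orb_notMem h
  by_contra hc
  push Not at hc
  have hc' : ∀ M, N ≤ M → orb ε M < q ∨ 1 < orb ε M := by
    intro M hM
    rcases lt_trichotomy (orb ε M) q with h1 | h1 | h1
    · exact Or.inl h1
    · exact absurd (h1 ▸ q_mem_D) (hD M)
    · rcases lt_or_eq_of_le (hc M hM h1) with h2 | h2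
      · exact Or.inr h2
      · exact absurd (h2 ▸ one_mem_D) (hD M)
  have hpos : ∀ M, 0 < orb ε M := by
    intro M
    rcases lt_or_eq_of_le (orb_nonneg ε M) with h1 | h1
    · exact h1
    · exact absurd (h1 ▸ zero_mem_D) (hD M)
  have hlt : ∀ M, orb ε M < 1 + q := by
    intro M
    rcases lt_or_eq_of_le (orb_le ε M) with h1 | h1
    · exact h1
    · exact absurd (h1 ▸ top_mem_D) (hD M)
  rcases hc' N le_rfl with h1 | h1
  · have hk : ∀ k, orb ε (N + k) < q ∧ orb ε N = q ^ k * orb ε (N + k) := by
      intro k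
      induction k with
      | zero => exact ⟨h1, by simp⟩
      | succ k ih =>
        have h2 := orb_rec ε (N + k)
        have h3 := hpos (N + k + 1)
        have hε : ¬ ε (N + k) = true := by
          intro hε
          rw [if_pos hε] at h2
          nlinarith [ih.1]
        rw [if_neg hε, zero_add] at h2
        have h4 : orb ε (N + k + 1) < 1 := by
          have := ih.1
          rw [h2] at this
          nlinarith
        refine ⟨?_, ?_⟩
        · rcases hc' (N + k + 1) (by omega) with h5 | h5
          · exact h5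
          · linarith
        · rw [ih.2, h2, pow_succ]; ring_nf
    have h2 : Tendsto (fun k : ℕ => q ^ k * q) atTop (𝓝 0) := by
      have := (tendsto_pow_atTop_nhds_zero_of_lt_one hq.le hq1).mul_const q
      simpa using this
    have h3 : ∀ᶠ k : ℕ in atTop, q ^ k * q < orb ε N := h2.eventually_lt_const (hpos N)
    obtain ⟨k, hk3⟩ := h3.exists
    have := (hk k).2
    have h4 : q ^ k * orb ε (N + k) ≤ q ^ k * q :=
      mul_le_mul_of_nonneg_left (hk k).1.le (pow_pos hq k).le
    linarith
  · have hk : ∀ k, 1 < orb ε (N + k) ∧ 1 + q - orb ε N = q ^ k * (1 + q - orb ε (N + k)) := by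
      intro k
      induction k with
      | zero => exact ⟨h1, by simp⟩
      | succ k ih =>
        have h2 := orb_rec ε (N + k)
        have h3 := hlt (N + k + 1)
        have hε : ε (N + k) = true := by
          by_contra hε
          rw [if_neg hε, zero_add] at h2
          nlinarith [ih.1]
        rw [if_pos hε] at h2
        have h4 : q < orb ε (N + k + 1) := by
          have := ih.1
          rw [h2] at this
          nlinarith
        refine ⟨?_, ?_⟩
        · rcases hc' (N + k + 1) (by omega) with h5 | h5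
          · linarith
          · exact h5
        · rw [ih.2, h2, pow_succ]
          have e : N + (k + 1) = N + k + 1 := by ring
          rw [e]
          linear_combination (q ^ k) * (-hsq)
    have h2 : Tendsto (fun k : ℕ => q ^ k * q) atTop (𝓝 0) := by
      have := (tendsto_pow_atTop_nhds_zero_of_lt_one hq.le hq1).mul_const q
      simpa using this
    have h3 : ∀ᶠ k : ℕ in atTop, q ^ k * q < 1 + q - orb ε N :=
      h2.eventually_lt_const (by have := hlt N; linarith)
    obtain ⟨k, hk3⟩ := h3.exists
    have := (hk k).2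
    have h4 : q ^ k * (1 + q - orb ε (N + k)) ≤ q ^ k * q :=
      mul_le_mul_of_nonneg_left (by have := (hk k).1; linarith) (pow_pos hq k).le
    linarith

/-- another expansion agreeing up to `N` -/
lemma another {ε : ℕ → Bool} (h : f xq ε ∉ D) (N : ℕ) :
    ∃ δ, f xq δ = f xq ε ∧ (∀ n < N, δ n = ε n) ∧ δ ≠ ε := by
  classical
  have hq := q_pos
  have hq1 := q_lt
  have hsq := q_sq
  obtain ⟨M, hNM, h1, h2⟩ := visits h N
  have hrec := orb_rec ε M
  let v : ℝ := (orb ε M - (if (!(ε M)) then q else 0)) / q
  have hv0 : 0 ≤ v := by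
    apply div_nonneg _ hq.le
    split_ifs <;> linarith
  have hv1 : v ≤ 1 + q := by
    simp only [v]
    rw [div_le_iff₀ hq]
    split_ifs <;> nlinarith
  obtain ⟨γ, hγ⟩ := exists_exp v hv0 hv1
  let δ : ℕ → Bool := fun n => if n < M then ε n else if n = M then !(ε M) else γ (n - (M + 1))
  have hδ1 : ∀ n < M, δ n = ε n := fun n hn => by simp [δ, hn]
  have hδ2 : δ M = !(ε M) := by simp [δ]
  have hδ3 : tail (M + 1) δ = γ := by
    funext n
    have e1 : ¬ (n + (M + 1) < M) := by omega
    have e2 : ¬ (n + (M + 1) = M) := by omega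
    simp only [tail, δ, e1, e2, if_false]
    congr 1
    omega
  have horb : orb δ M = orb ε M := by
    rw [orb_rec δ M, hδ2]
    have : orb δ (M + 1) = v := by
      unfold orb; rw [hδ3, hγ]
    rw [this]
    simp only [v]
    field_simp
    ring
  refine ⟨δ, f_eq_of_orb hδ1 horb, fun n hn => hδ1 n (by omega), ?_⟩
  intro he
  have := congrFun he M
  rw [hδ2] at this
  cases hM : ε M <;> simp [hM] at this


lemma fibre_uncountable {t : ℝ} (ht : t ∉ D) (hne : (fibre xq t).Nonempty) :
    ¬ (fibre xq t).Countable := by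
  intro hcount
  have hcl : IsClosed (fibre xq t) := isClosed_singleton.preimage (f_cont xq_pos xq_summable)
  let _ := TopologicalSpace.upgradeIsCompletelyMetrizable (ℕ → Bool)
  have hperf : Perfect (fibre xq t) := by
    refine ⟨hcl, ?_⟩
    rw [preperfect_iff_nhds]
    intro ε hε U hU
    -- basic neighbourhood
    rw [mem_nhds_iff] at hU
    obtain ⟨V, hVU, hVo, hεV⟩ := hU
    rw [isOpen_pi_iff] at hVo
    obtain ⟨I, W, hW1, hW2⟩ := hVo ε hεV
    have hεD : f xq ε ∉ D := by
      have : f xq ε = t := hε
      rw [this]; exact ht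
    obtain ⟨δ, hδ1, hδ2, hδ3⟩ := another hεD (I.sup id + 1)
    refine ⟨δ, ⟨hVU (hW2 ?_), ?_⟩, hδ3⟩
    · intro i hi
      have : i ≤ I.sup id := Finset.le_sup (f := id) hi
      rw [hδ2 i (by omega)]
      exact (hW1 i hi).2
    · show f xq δ = t
      rw [hδ1]; exact hε
  obtain ⟨g, hg1, _, hg2⟩ := hperf.exists_nat_bool_injection hne
  have h1 : (Set.range g).Countable := hcount.mono hg1
  have h2 : Countable (ℕ → Bool) := by
    rw [← Set.countable_univ_iff]
    apply Set.Countable.mono _ (h1.preimage_of_injOn (f := g) hg2.injOn)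
    intro z _
    exact ⟨z, rfl⟩
  have h3 : #(ℕ → Bool) ≤ ℵ₀ := Cardinal.mk_le_aleph0
  have h4 : #(ℕ → Bool) = 𝔠 := mk_cantor
  rw [h4] at h3
  exact absurd h3 (not_le.2 Cardinal.aleph0_lt_continuum)

/-- the expansions `(10)^k 11 0^∞` of `1` -/
def ek : ℕ → (ℕ → Bool)
  | 0 => fun n => decide (n = 0 ∨ n = 1)
  | k + 1 => fun n => if n = 0 then true else if n = 1 then false else ek k (n - 2)

lemma f_ek (k : ℕ) : f xq (ek k) = 1 := by
  have hsq := q_sq
  induction k with
  | zero =>
    rw [f_rec, f_rec (tail 1 (ek 0))]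
    have h0 : tail 1 (tail 1 (ek 0)) = fun _ => false := by
      funext n; simp [tail, ek]
    rw [h0]
    have h1 : f xq (fun _ => false) = 0 := by simp [f]
    rw [h1]
    simp [ek, tail]
    linarith
  | succ k ih =>
    rw [f_rec, f_rec (tail 1 (ek (k + 1)))]
    have h0 : tail 1 (tail 1 (ek (k + 1))) = ek k := by
      funext n; simp [tail, ek]
    rw [h0, ih]
    simp [ek, tail]
    linarith

lemma ek_inj : Function.Injective ek := by
  intro a
  induction a with
  | zero =>
    intro b h
    cases b with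
    | zero => rfl
    | succ b =>
      have := congrFun h 1
      simp [ek] at this
  | succ a ih =>
    intro b h
    cases b with
    | zero =>
      have := congrFun h 1
      simp [ek] at this
    | succ b =>
      have : ek a = ek b := by
        funext n
        have := congrFun h (n + 2)
        simpa [ek] using this
      rw [ih this]

/-- eventually constant sequences -/
lemma evconst_countable : {ε : ℕ → Bool | ∃ N b, ∀ n ≥ N, ε n = b}.Countable := by
  have : {ε : ℕ → Bool | ∃ N b, ∀ n ≥ N, ε n = b} ⊆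
      ⋃ N : ℕ, Set.range (fun p : (Fin N → Bool) × Bool => fun n : ℕ =>
        if h : n < N then p.1 ⟨n, h⟩ else p.2) := by
    rintro ε ⟨N, b, h⟩
    rw [Set.mem_iUnion]
    refine ⟨N, ⟨(fun i => ε i, b), ?_⟩⟩
    funext n
    by_cases hn : n < N
    · simp [hn]
    · simp only [hn, dite_false]
      exact (h n (by omega)).symm
  exact (Set.countable_iUnion fun N => Set.countable_range _).mono this

lemma tail_zero {ε : ℕ → Bool} {N : ℕ} (h : orb ε N = 0) : ∀ n ≥ N, ε n = false := by
  have hq := q_pos
  have key : ∀ k, orb ε (N + k) = 0 := by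
    intro k
    induction k with
    | zero => exact h
    | succ k ih =>
      have h1 := orb_rec ε (N + k)
      rw [ih] at h1
      have h2 := orb_nonneg ε (N + k + 1)
      have h3 : N + (k + 1) = N + k + 1 := by ring
      rw [h3]
      split_ifs at h1 <;> nlinarith
  intro n hn
  obtain ⟨k, rfl⟩ := Nat.exists_eq_add_of_le hn
  have h1 := orb_rec ε (N + k)
  rw [key k] at h1
  by_contra hc
  rw [Bool.not_eq_false] at hc
  rw [if_pos hc] at h1
  have h2 := orb_nonneg ε (N + k + 1)
  nlinarith

lemma tail_top {ε : ℕ → Bool} {N : ℕ} (h : orb ε N = 1 + q) : ∀ n ≥ N, ε n = true := by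
  have hq := q_pos
  have hsq := q_sq
  have key : ∀ k, orb ε (N + k) = 1 + q := by
    intro k
    induction k with
    | zero => exact h
    | succ k ih =>
      have h1 := orb_rec ε (N + k)
      rw [ih] at h1
      have h2 := orb_le ε (N + k + 1)
      have h3 : N + (k + 1) = N + k + 1 := by ring
      rw [h3]
      split_ifs at h1 <;> nlinarith
  intro n hn
  obtain ⟨k, rfl⟩ := Nat.exists_eq_add_of_le hn
  have h1 := orb_rec ε (N + k)
  rw [key k] at h1
  by_contra hc
  rw [if_neg hc] at h1
  have h2 := orb_le ε (N + k + 1)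
  nlinarith

lemma fibre_one_countable : (fibre xq 1).Countable := by
  have hq := q_pos
  have hsq := q_sq
  have hsub : fibre xq 1 ⊆ {ε : ℕ → Bool | ∃ N b, ∀ n ≥ N, ε n = b} ∪
      {fun n => decide (n % 2 = 0)} := by
    intro ε hε
    have h0 : orb ε 0 = 1 := by rw [orb_zero]; exact hε
    by_cases hev : ε ∈ {ε : ℕ → Bool | ∃ N b, ∀ n ≥ N, ε n = b}
    · exact Or.inl hev
    · right
      have key : ∀ k, orb ε (2 * k) = 1 ∧ ε (2 * k) = true ∧ ε (2 * k + 1) = false := by
        have step : ∀ k, orb ε (2 * k) = 1 →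
            ε (2 * k) = true ∧ ε (2 * k + 1) = false ∧ orb ε (2 * (k + 1)) = 1 := by
          intro k hk
          have h1 := orb_rec ε (2 * k)
          rw [hk] at h1
          have hε1 : ε (2 * k) = true := by
            by_contra hc
            rw [if_neg hc, zero_add] at h1
            have h2 : orb ε (2 * k + 1) = 1 + q := by
              have h3 := inv_q
              rw [← h3]
              field_simp
              linarith
            exact hev ⟨_, true, tail_top h2⟩
          rw [if_pos hε1] at h1
          have h2 : orb ε (2 * k + 1) = q := by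
            have : q * orb ε (2 * k + 1) = q * q := by nlinarith
            exact mul_left_cancel₀ hq.ne' this
          have h3 := orb_rec ε (2 * k + 1)
          rw [h2] at h3
          have hε2 : ε (2 * k + 1) = false := by
            by_contra hc
            rw [Bool.not_eq_false] at hc
            rw [if_pos hc] at h3
            have h4 : orb ε (2 * k + 1 + 1) = 0 := by
              have : q * orb ε (2 * k + 1 + 1) = q * 0 := by linarith
              exact mul_left_cancel₀ hq.ne' this
            exact hev ⟨_, false, tail_zero h4⟩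
          rw [hε2] at h3
          simp only [Bool.false_eq_true, if_false, zero_add] at h3
          refine ⟨hε1, hε2, ?_⟩
          have h5 : 2 * (k + 1) = 2 * k + 1 + 1 := by ring
          rw [h5]
          have : q * orb ε (2 * k + 1 + 1) = q * 1 := by linarith
          exact mul_left_cancel₀ hq.ne' this
        have horb : ∀ k, orb ε (2 * k) = 1 := by
          intro k
          induction k with
          | zero => simpa using h0
          | succ k ih => exact (step k ih).2.2
        intro k
        exact ⟨horb k, (step k (horb k)).1, (step k (horb k)).2.1⟩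
      rw [Set.mem_singleton_iff]
      funext n
      rcases Nat.even_or_odd' n with ⟨k, rfl | rfl⟩
      · rw [(key k).2.1]; simp
      · rw [(key k).2.2]; simp
  exact (evconst_countable.union (Set.countable_singleton _)).mono hsub

lemma one_mem_Lomega : (1 : ℝ) ∈ Lomega xq := by
  show #(fibre xq 1) = ℵ₀
  have h1 : Countable (fibre xq 1) := fibre_one_countable.to_subtype
  have h2 : Infinite (fibre xq 1) :=
    Infinite.of_injective (fun k : ℕ => (⟨ek k, f_ek k⟩ : fibre xq 1)) (by
      intro a b hab
      exact ek_inj (congrArg Subtype.val hab))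
  exact Cardinal.mk_eq_aleph0 _

lemma Lomega_sub : Lomega xq ⊆ D := by
  intro t ht
  by_contra hD
  have h1 : #(fibre xq t) = ℵ₀ := ht
  have h2 : (fibre xq t).Countable := Cardinal.le_aleph0_iff_set_countable.1 h1.le
  have h3 : (fibre xq t).Nonempty := by
    by_contra hc
    rw [Set.not_nonempty_iff_eq_empty] at hc
    rw [hc] at h1
    simp at h1
    exact absurd h1.symm Cardinal.aleph0_ne_zero
  exact fibre_uncountable hD h3 h2

theorem q2 : ∃ x : ℕ → ℝ, (∀ n, 0 < x n) ∧ Summable x ∧ (Lomega x).Nonempty ∧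
    ∀ C ⊆ Lomega x, ¬ IsCantor C := by
  refine ⟨xq, xq_pos, xq_summable, ⟨1, one_mem_Lomega⟩, ?_⟩
  rintro C hC ⟨e⟩
  have h1 : C.Countable := D_countable.mono (hC.trans Lomega_sub)
  have h2 : Countable C := h1.to_subtype
  have h3 : Countable (ℕ → Bool) := e.symm.injective.countable
  have h5 : #(ℕ → Bool) ≤ ℵ₀ := Cardinal.mk_le_aleph0
  have h4 : #(ℕ → Bool) = 𝔠 := mk_cantor
  rw [h4] at h5
  exact absurd h5 (not_le.2 Cardinal.aleph0_lt_continuum)

/-- **Q1 is true and Q2 is false.** -/
theorem result :
    (∀ x : ℕ → ℝ, (∀ n, 0 < x n) → Summable x → (Lc x).Nonempty → ∃ C ⊆ Lc x, IsCantor C) ∧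
    (∃ x : ℕ → ℝ, (∀ n, 0 < x n) ∧ Summable x ∧ (Lomega x).Nonempty ∧
      ∀ C ⊆ Lomega x, ¬ IsCantor C) :=
  ⟨q1, q2⟩

end Pool.Agent.Results.MP_c42e77_an.CantorLevels
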